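import Mathlib

namespace Pool.Agent.Results.MP_ca4252_co.Full

/-- The substitution `0 ↦ 01`, `1 ↦ 0`. -/
def sub (a : Fin 2) : List (Fin 2) := if a = 0 then [0, 1] else [0]

/-- The initial segment `f 0, ..., f (n-1)`. -/
def pre (f : ℕ → Fin 2) (n : ℕ) : List (Fin 2) := (List.range n).map f

/-- `f` is a fixed point of the substitution: the image of every initial segment of `f` is an initial segment of `f`. -/
def IsFixed (f : ℕ → Fin 2) : Prop :=
  ∀ n, (pre f n).flatMap sub = pre f ((pre f n).flatMap sub).length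

lemma pre_succ (f : ℕ → Fin 2) (n : ℕ) : pre f (n + 1) = pre f n ++ [f n] := by
  simp [pre, List.range_succ]

lemma pre_len (f : ℕ → Fin 2) (n : ℕ) : (pre f n).length = n := by simp [pre]

lemma zero_of (f : ℕ → Fin 2) (h : IsFixed f) : f 0 = 0 := by
  have := h 1
  by_cases h0 : f 0 = 0
  · exact h0
  · simp [pre, sub, h0] at this
    exact this.symm

lemma len_ge (f : ℕ → Fin 2) (h0 : f 0 = 0) (n : ℕ) :
    n + 2 ≤ ((pre f (n + 1)).flatMap sub).length := by
  induction n with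
  | zero => simp [pre, sub, h0]
  | succ n ih =>
    rw [pre_succ, List.flatMap_append, List.length_append]
    have : 1 ≤ ([f (n + 1)].flatMap sub).length := by
      by_cases h : f (n + 1) = 0 <;> simp [sub, h]
    omega

lemma uniq (f g : ℕ → Fin 2) (hf : IsFixed f) (hg : IsFixed g) : f = g := by
  have key : ∀ n, pre f (n + 1) = pre g (n + 1) := by
    intro n
    induction n with
    | zero => simp [pre, zero_of f hf, zero_of g hg]
    | succ n ih =>
      have h1 := hf (n + 1)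
      have h2 := hg (n + 1)
      have h3 := len_ge g (zero_of g hg) n
      rw [ih] at h1
      have h4 := h1.symm.trans h2
      have h5 := List.map_inj_left.1 h4 (n + 1) (List.mem_range.2 (by omega))
      rw [pre_succ f (n + 1), pre_succ g (n + 1), ih, h5]
  funext n
  exact List.map_inj_left.1 (key n) n (List.mem_range.2 (by omega))

noncomputable def G (t : ℝ) (n : ℕ) : Fin 2 :=
  if 2 - t ≤ Int.fract (((n : ℝ) + 1) * t) then 0 else 1

lemma fixedG (t : ℝ) (ht : t * t = t + 1) (h1 : 1.618 < t) (h2 : t < 1.6181)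
    (hi : ∀ a b : ℤ, (a : ℝ) * t = b → a = 0) : IsFixed (G t) := by
  have key : ∀ n : ℕ, ∃ B : ℕ, ((B : ℝ) + 1 ≤ ((n : ℝ) + 1) * t ∧ ((n : ℝ) + 1) * t < B + 2) ∧
      (pre (G t) n).flatMap sub = pre (G t) B := by
    intro n
    induction n with
    | zero => exact ⟨0, by constructor <;> simp <;> linarith, by simp [pre]⟩
    | succ n ih =>
      obtain ⟨B, ⟨hB1, hB2⟩, hB⟩ := ih
      obtain ⟨x, hx⟩ : ∃ x : ℝ, x = ((n : ℝ) + 1) * t - (B + 1) := ⟨_, rfl⟩
      have hx0 : 0 < x := by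
        rcases hB1.lt_or_eq with h | h
        · linarith
        · have := hi (n + 1) (B + 1) (by push_cast; linarith)
          omega
      have hx1 : x < 1 := by linarith
      have hf : Int.fract (((n : ℝ) + 1) * t) = x :=
        Int.fract_eq_iff.2 ⟨hx0.le, hx1, B + 1, by push_cast; linarith⟩
      have e1 : ((B : ℝ) + 1) * t = n + 1 + (B + 1) - x * (t - 1) := by
        rw [hx]; linear_combination ((n : ℝ) + 1) * ht
      have hfB : Int.fract (((B : ℝ) + 1) * t) = 1 - x * (t - 1) :=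
        Int.fract_eq_iff.2 ⟨by nlinarith, by nlinarith, n + 1 + B, by push_cast; linarith⟩
      have gB : G t B = 0 := by
        unfold G; rw [hfB, if_pos (by nlinarith)]
      rw [pre_succ, List.flatMap_append, hB]
      by_cases hc : 2 - t ≤ x
      · have hc' : 2 - t < x := by
          rcases hc.lt_or_eq with h | h
          · exact h
          · have := hi (n + 2) (B + 3) (by push_cast; linarith)
            omega
        have gn : G t n = 0 := by unfold G; rw [hf, if_pos hc]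
        have hfB1 : Int.fract ((((B + 1 : ℕ) : ℝ) + 1) * t) = (t - 1) * (1 - x) :=
          Int.fract_eq_iff.2 ⟨by nlinarith, by nlinarith, n + 3 + B, by push_cast; linarith⟩
        have gB1 : G t (B + 1) = 1 := by
          unfold G; rw [hfB1, if_neg (by nlinarith)]
        refine ⟨B + 2, by push_cast; constructor <;> linarith, ?_⟩
        rw [pre_succ, pre_succ, gB, gB1, gn]; simp [sub]
      · have gn : G t n = 1 := by unfold G; rw [hf, if_neg hc]
        refine ⟨B + 1, by push_cast; constructor <;> linarith, ?_⟩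
        rw [pre_succ, gB, gn]; simp [sub]
  intro n
  obtain ⟨B, -, hB⟩ := key n
  rw [hB, pre_len]

lemma nojump (t a e : ℝ) (he1 : e ≤ 2 - t) (he2 : t - 2 ≤ e) (u : ℕ → ℝ) (s : ℕ)
    (hu : ∀ j ≤ s, a ≤ u j ∧ u j < a + (t - 1))
    (hz : ∀ j, ∃ z : ℤ, u (j + 1) - u j - e = z) : u s = u 0 + s * e := by
  induction s with
  | zero => simp
  | succ s ih =>
    have h1 := ih (fun j hj => hu j (by omega))
    obtain ⟨z, hz⟩ := hz s
    have a1 := hu s (by omega)
    have a2 := hu (s + 1) le_rfl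
    have z1 : (z : ℝ) < 1 := by linarith [a1.1, a1.2, a2.1, a2.2]
    have z2 : (-1 : ℝ) < z := by linarith [a1.1, a1.2, a2.1, a2.2]
    have z3 : z < 1 := by exact_mod_cast z1
    have z4 : -1 < z := by exact_mod_cast z2
    have : z = 0 := by omega
    rw [this] at hz
    push_cast at hz ⊢
    linarith

lemma normge (t : ℝ) (ht : t * t = t + 1) (h1 : 1.618 < t)
    (hi : ∀ a b : ℤ, (a : ℝ) * t = b → a = 0) (d p : ℤ) (hd : 1 ≤ d) (hp : 0 ≤ p) :
    (0 < d * t - p ∧ 1 ≤ (d * t - p) * (p + d * (t - 1))) ∨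
      (d * t - p < 0 ∧ 1 ≤ -(d * t - p) * (p + d * (t - 1))) := by
  have hd' : (1 : ℝ) ≤ d := by exact_mod_cast hd
  have hp' : (0 : ℝ) ≤ p := by exact_mod_cast hp
  have hw : 0 < (p : ℝ) + d * (t - 1) := by nlinarith
  have e : (d * t - p) * (p + d * (t - 1)) = ((d * d + p * d - p * p : ℤ) : ℝ) := by
    push_cast; linear_combination ((d : ℝ) * d) * ht
  rcases lt_trichotomy (d * t - p) 0 with h | h | h
  · right
    refine ⟨h, ?_⟩
    have h3 : (((d * d + p * d - p * p : ℤ) : ℝ)) < 0 := e ▸ mul_neg_of_neg_of_pos h hw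
    have h4 : d * d + p * d - p * p < 0 := by exact_mod_cast h3
    have h5 : d * d + p * d - p * p ≤ -1 := by omega
    have h6 : (((d * d + p * d - p * p : ℤ) : ℝ)) ≤ -1 := by exact_mod_cast h5
    linarith
  · have := hi d p (by linarith); omega
  · left
    refine ⟨h, ?_⟩
    have h3 : 0 < (((d * d + p * d - p * p : ℤ) : ℝ)) := e ▸ mul_pos h hw
    have h4 : 0 < d * d + p * d - p * p := by exact_mod_cast h3
    have h5 : 1 ≤ d * d + p * d - p * p := by omega
    have h6 : 1 ≤ (((d * d + p * d - p * p : ℤ) : ℝ)) := by exact_mod_cast h5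
    linarith

lemma caseA (t a : ℝ) (ht : t * t = t + 1) (h1 : 1.618 < t) (h2 : t < 1.6181)
    (hi : ∀ a b : ℤ, (a : ℝ) * t = b → a = 0) (d m : ℕ) (hd : 1 ≤ d) (p : ℤ) (hp : 0 ≤ p)
    (he1 : d * t - p ≤ 2 - t) (he2 : t - 2 ≤ d * t - p) (u : ℕ → ℝ)
    (hu : ∀ j ≤ m, a ≤ u j ∧ u j < a + (t - 1))
    (hz : ∀ j, ∃ z : ℤ, u (j + 1) - u j - d * t = z) : (m : ℝ) < (3 - t) * d := by
  have h := nojump t a _ he1 he2 u m hu (fun j => by
    obtain ⟨z, hz⟩ := hz j
    exact ⟨z + p, by push_cast; linarith⟩)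
  have a0 := hu 0 (by omega)
  have am := hu m le_rfl
  obtain ⟨e, he⟩ : ∃ e : ℝ, e = d * t - p := ⟨_, rfl⟩
  have e2 : (t - 1) * (p + d * (t - 1)) = 3 * d - p - t * e := by
    rw [he]; linear_combination (2 * (d : ℝ)) * ht
  have hN := normge t ht h1 hi d p (by exact_mod_cast hd) hp
  push_cast at hN
  rw [← he] at hN h he1 he2
  rcases hN with ⟨h3, h4⟩ | ⟨h3, h4⟩
  · have h5 : m * e < (3 * d - p - t * e) * e := by
      rw [← e2]; nlinarith [a0.1, am.2]
    have h6 := lt_of_mul_lt_mul_right h5 h3.le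
    nlinarith
  · have h5 : m * (-e) < (3 * d - p - t * e) * (-e) := by
      rw [← e2]; nlinarith [a0.2, am.1]
    have h6 := lt_of_mul_lt_mul_right h5 (by linarith)
    have h7 : (m : ℝ) < 3 * d - p + 1 := by nlinarith
    have h8 : (m : ℤ) < 3 * d - p + 1 := by exact_mod_cast h7
    have h9 : (m : ℤ) ≤ 3 * d - p := by omega
    have h10 : (m : ℝ) ≤ 3 * d - p := by exact_mod_cast h9
    linarith

lemma caseB (t a : ℝ) (ht : t * t = t + 1) (h1 : 1.618 < t) (h2 : t < 1.6181)
    (hi : ∀ a b : ℤ, (a : ℝ) * t = b → a = 0) (d r : ℕ) (hd : 1 ≤ d) (p : ℤ) (hp : 0 ≤ p)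
    (he1 : 2 - t < d * t - p) (he2 : d * t - p < t - 1) (u : ℕ → ℝ)
    (hu : ∀ j ≤ 2 * r + 2, a ≤ u j ∧ u j < a + (t - 1))
    (hz : ∀ j, ∃ z : ℤ, u (j + 1) - u j - d * t = z) :
    (2 * r + 1 : ℝ) < 1.057 * d + 0.06 := by
  obtain ⟨e, he⟩ : ∃ e : ℝ, e = 2 * d * t - (2 * p + 1) := ⟨_, rfl⟩
  have two : ∀ j, ∃ z : ℤ, u (j + 2) - u j - e = z := fun j => by
    obtain ⟨z, hz1⟩ := hz j
    obtain ⟨w, hw⟩ := hz (j + 1)
    exact ⟨z + w + (2 * p + 1), by push_cast; linarith⟩
  have hE := nojump t a e (by linarith) (by linarith) (fun j => u (2 * j)) (r + 1)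
    (fun j hj => hu _ (by omega)) (fun j => two (2 * j))
  have hO := nojump t a e (by linarith) (by linarith) (fun j => u (2 * j + 1)) r
    (fun j hj => hu _ (by omega)) (fun j => two (2 * j + 1))
  have a0 := hu 0 (by omega)
  have a1 := hu 1 (by omega)
  have a2 := hu (2 * r + 1) (by omega)
  have a3 := hu (2 * (r + 1)) (by omega)
  obtain ⟨z, hz0⟩ := hz 0
  simp only [mul_zero, zero_add] at hE hO hz0
  push_cast at hE
  have z1 : ((z + p : ℤ) : ℝ) < 1 := by push_cast; linarith [a0.1, a1.2]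
  have z2 : (-2 : ℝ) < ((z + p : ℤ) : ℝ) := by push_cast; linarith [a0.2, a1.1]
  have z3 : z + p < 1 := by exact_mod_cast z1
  have z4 : -2 < z + p := by exact_mod_cast z2
  have hb : (2 * r + 1) * e < 2 * t - 3 ∧ (2 * r + 1) * (-e) < 2 * t - 3 := by
    have : z = -p ∨ z = -p - 1 := by omega
    rcases this with h | h <;> rw [h] at hz0 <;> push_cast at hz0 <;> constructor <;>
      linarith [a0.1, a0.2, a1.1, a1.2, a2.1, a2.2, a3.1, a3.2]
  have hN := normge t ht h1 hi (2 * d) (2 * p + 1) (by omega) (by omega)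
  push_cast at hN
  rw [← he] at hN
  have hd' : (1 : ℝ) ≤ d := by exact_mod_cast hd
  obtain ⟨w, hw⟩ : ∃ w : ℝ, w = 2 * p + 1 + 2 * d * (t - 1) := ⟨_, rfl⟩
  rw [← hw] at hN
  have hw1 : w ≤ 4.4724 * d + 0.24 := by nlinarith
  have hw2 : (2 * t - 3) * w ≤ 1.057 * d + 0.06 := by
    have : (2 * t - 3) * w ≤ (2 * t - 3) * (4.4724 * d + 0.24) :=
      mul_le_mul_of_nonneg_left hw1 (by linarith)
    nlinarith
  rcases hN with ⟨h3, h4⟩ | ⟨h3, h4⟩
  · have h5 : (2 * r + 1) * e < ((2 * t - 3) * w) * e := by nlinarith [hb.1]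
    have h6 := lt_of_mul_lt_mul_right h5 h3.le
    linarith
  · have h5 : (2 * r + 1) * (-e) < ((2 * t - 3) * w) * (-e) := by nlinarith [hb.2]
    have h6 := lt_of_mul_lt_mul_right h5 (by linarith)
    linarith

lemma main (t a : ℝ) (ht : t * t = t + 1) (h1 : 1.618 < t) (h2 : t < 1.6181)
    (hi : ∀ a b : ℤ, (a : ℝ) * t = b → a = 0) (d m : ℕ) (hd : 1 ≤ d) (u : ℕ → ℝ)
    (hu : ∀ j ≤ m, a ≤ u j ∧ u j < a + (t - 1))
    (hz : ∀ j, ∃ z : ℤ, u (j + 1) - u j - d * t = z) : (m : ℝ) < (3 - t) * d := by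
  have hd' : (1 : ℝ) ≤ d := by exact_mod_cast hd
  obtain ⟨p, hp1, hp2⟩ : ∃ p : ℤ, (p : ℝ) ≤ d * t ∧ d * t < p + 1 :=
    ⟨⌊(d : ℝ) * t⌋, Int.floor_le _, Int.lt_floor_add_one _⟩
  have hp0 : 0 ≤ p := by
    have : (0 : ℝ) < p := by nlinarith
    exact_mod_cast this.le
  by_cases c1 : d * t - p ≤ 2 - t
  · exact caseA t a ht h1 h2 hi d m hd p hp0 c1 (by linarith) u hu hz
  by_cases c2 : t - 1 ≤ d * t - p
  · exact caseA t a ht h1 h2 hi d m hd (p + 1) (by omega) (by push_cast; linarith)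
      (by push_cast; linarith) u hu hz
  push Not at c1 c2
  have ex : ∀ k : ℤ, (k : ℝ) < p → (p : ℝ) < k + 1 → False := fun k k1 k2 => by
    have k3 : k < p := by exact_mod_cast k1
    have k4 : p < k + 1 := by exact_mod_cast k2
    omega
  have hd4 : d = 4 ∨ 6 ≤ d := by
    by_contra hc
    have : d = 1 ∨ d = 2 ∨ d = 3 ∨ d = 5 := by omega
    rcases this with h | h | h | h <;> subst h <;> push_cast at c1 c2
    · exact ex 1 (by push_cast; linarith) (by push_cast; linarith)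
    · exact ex 2 (by push_cast; linarith) (by push_cast; linarith)
    · exact ex 4 (by push_cast; linarith) (by push_cast; linarith)
    · exact ex 7 (by push_cast; linarith) (by push_cast; linarith)
  have hd5 : (4 : ℝ) ≤ d := by exact_mod_cast (by omega : 4 ≤ d)
  by_cases hm : m < 2
  · have : (m : ℝ) < 2 := by exact_mod_cast hm
    nlinarith
  obtain ⟨r, hr1, hr2⟩ : ∃ r, 2 * r + 2 ≤ m ∧ m ≤ 2 * r + 3 := ⟨m / 2 - 1, by omega, by omega⟩
  have hB := caseB t a ht h1 h2 hi d r hd p hp0 c1 c2 u (fun j hj => hu j (by omega)) hz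
  have hB' : 1000 * (2 * r + 1) < 1057 * d + 60 := by
    have : (1000 * (2 * r + 1) : ℝ) < 1057 * d + 60 := by linarith
    exact_mod_cast this
  have hC : 1000 * m ≤ 1381 * d := by omega
  have hC' : (1000 * m : ℝ) ≤ 1381 * d := by exact_mod_cast hC
  clear hB' hC hB
  have hD : (1.381 : ℝ) * d < (3 - t) * d :=
    mul_lt_mul_of_pos_right (by linarith only [h2]) (by linarith only [hd'])
  linarith only [hD, hC']

theorem result : (∃! f, IsFixed f) ∧ ∀ f, IsFixed f → ∀ d : ℕ, 1 ≤ d → ∀ i k : ℕ,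
    (∀ j < k, f (i + j * d) = f i) → ((k : ℝ) - 1) / d < √5 / ((1 + √5) / 2) := by
  have s5 : √5 * √5 = 5 := Real.mul_self_sqrt (by norm_num)
  have s0 : 0 ≤ √5 := Real.sqrt_nonneg 5
  obtain ⟨t, htd⟩ : ∃ t : ℝ, t = (1 + √5) / 2 := ⟨_, rfl⟩
  have ht : t * t = t + 1 := by rw [htd]; linear_combination (1 / 4 : ℝ) * s5
  have h0 : 0.5 ≤ t := by linarith
  have h1 : 1.618 < t := by nlinarith
  have h2 : t < 1.6181 := by nlinarith
  have hi : ∀ a b : ℤ, (a : ℝ) * t = b → a = 0 := by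
    intro a b hab
    by_contra ha
    have hirr : Irrational t := by rw [htd]; exact Real.goldenRatio_irrational
    exact (hirr.intCast_mul ha).ne_int b hab
  have hG := fixedG t ht h1 h2 hi
  refine ⟨⟨G t, hG, fun f hf => uniq f _ hf hG⟩, ?_⟩
  intro f hf d hd i k hk
  rw [uniq f _ hf hG] at hk
  have hd' : (1 : ℝ) ≤ d := by exact_mod_cast hd
  have e : √5 / ((1 + √5) / 2) = 3 - t := by
    rw [← htd, div_eq_iff (by linarith)]; linarith
  rw [e, div_lt_iff₀ (by linarith)]
  rcases k with _ | m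
  · push_cast; nlinarith
  have hz : ∀ j : ℕ, ∃ z : ℤ, Int.fract ((((i + (j + 1) * d : ℕ) : ℝ) + 1) * t)
      - Int.fract ((((i + j * d : ℕ) : ℝ) + 1) * t) - d * t = z := fun j =>
    ⟨⌊(((i + j * d : ℕ) : ℝ) + 1) * t⌋ - ⌊(((i + (j + 1) * d : ℕ) : ℝ) + 1) * t⌋, by
      simp only [Int.fract]; push_cast; ring⟩
  have fin : (m : ℝ) < (3 - t) * d := by
    by_cases hc : G t i = 0
    · refine main t (2 - t) ht h1 h2 hi d m hd
        (fun j => Int.fract ((((i + j * d : ℕ) : ℝ) + 1) * t)) (fun j hj => ?_) hz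
      have := hk j (by omega)
      rw [hc] at this
      unfold G at this
      split_ifs at this with h
      · exact ⟨h, by linarith [Int.fract_lt_one ((((i + j * d : ℕ) : ℝ) + 1) * t)]⟩
      · exact absurd this (by decide)
    · refine main t 0 ht h1 h2 hi d m hd
        (fun j => Int.fract ((((i + j * d : ℕ) : ℝ) + 1) * t)) (fun j hj => ?_) hz
      have := hk j (by omega)
      rw [← this] at hc
      unfold G at hc
      split_ifs at hc with h
      · exact absurd rfl hc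
      · exact ⟨Int.fract_nonneg _, by linarith⟩
  push_cast; linarith

end Pool.Agent.Results.MP_ca4252_co.Full
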